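import Pool.Agent.RCP.CompleteCode

/-!
Let `D` be a code and let `X ⊆ D∗` be finite and complete over `D`, with a word `b` of `D` of
prime period. Then `X` admits a finite rich composition that is a code if and only if `X∗` is
dense in `D∗` on the right or on the left.
-/

namespace Pool.Agent.Results.MP_bdc915_lc.CompletePrime

open RCP

theorem result {A : Type*} (D X : Set (List A)) (hD : IsCode D) (hfin : X.Finite)
    (hXD : X ⊆ star D)
    (hcomplete : ∀ w ∈ star D, ∃ s ∈ star D, ∃ t ∈ star D, s ++ w ++ t ∈ star X)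
    (b : List A) (hbD : b ∈ D) (p : ℕ) (hp : p.Prime) (hb : wpow b p ∈ X)
    (hX : ∀ x ∈ X, x ≠ [] → x ≠ wpow b p →
      ∃ c ∈ D, c ≠ b ∧ ∃ i, i < p ∧ ∃ s ∈ star D, x = wpow b i ++ c ++ s)
    (hX' : ∀ x ∈ X, x ≠ [] → x ≠ wpow b p →
      ∃ c ∈ D, c ≠ b ∧ ∃ j, j < p ∧ ∃ s ∈ star D, x = s ++ c ++ wpow b j) :
    HasRichCode X ↔ (∀ w ∈ star D, ∃ t ∈ star D, w ++ t ∈ star X) ∨
      (∀ w ∈ star D, ∃ s ∈ star D, s ++ w ∈ star X) :=
  complete_code_iff hD hfin hXD hcomplete hbD hp hb hX hX'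

end Pool.Agent.Results.MP_bdc915_lc.CompletePrime
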