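import Pool.Agent.RCP.ShortCode

/-!
Let `D` be a code and let `X` be a finite subset of `{1} ∪ D ∪ D²`. Then `X` admits a finite rich
composition that is a code if and only if `X` has no chain or is full on one side.
-/

namespace Pool.Agent.Results.MP_bdc915_lc.LengthTwo

open RCP

theorem result {A : Type*} (D X : Set (List A)) (hD : IsCode D) (hfin : X.Finite)
    (hX : ∀ x ∈ X, x = [] ∨ x ∈ D ∨ ∃ d ∈ D, ∃ e ∈ D, x = d ++ e) :
    HasRichCode X ↔ ¬ ChainW D X ∨ FullToRight D X ∨ FullToLeft D X :=
  code_short_iff hD hfin hX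

end Pool.Agent.Results.MP_bdc915_lc.LengthTwo
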