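import Pool.Agent.RCP.Transfer

/-!
Let `D` be a code and let `X` be a finite set of powers of words of `D`. Then `X` admits a finite
rich composition that is a code if and only if at most two words of `D` are wild for `X`, where
`d` is wild if the greatest common divisor of the exponents `m` with `d ^ m ∈ X` is not itself
such an exponent.
-/

namespace Pool.Agent.Results.MP_bdc915_lc.PowersOfCodeWords

open RCP

theorem result {A : Type*} (D X : Set (List A)) (hD : IsCode D) (hfin : X.Finite)
    (hX : ∀ x ∈ X, ∃ d ∈ D, ∃ m : ℕ, x = wpow d m) :
    HasRichCode X ↔ {d | d ∈ D ∧ ¬ TameW X d}.encard ≤ 2 :=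
  code_iff hD hfin hX

end Pool.Agent.Results.MP_bdc915_lc.PowersOfCodeWords
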