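import Pool.Agent.RCP.PrefixDec

/-!
A finite test which decides whether a finite set `X` admits a finite rich composition that is a
prefix code.
-/

namespace Pool.Agent.Results.MP_bdc915_lc.PrefixCodeTest

open RCP

theorem result {A : Type*} (X : Finset (List A)) (m : ℕ) (hm : m = 1 + ∑ x ∈ X, x.length) :
    (∃ Y : Set (List A), Y.Finite ∧ Y ⊆ star (X : Set (List A)) ∧ IsPrefixCode Y ∧
      factors (star Y) = factors (star (X : Set (List A)))) ↔
    ∀ z ∈ prefs (star (X : Set (List A))), z.length = 2 ^ m →
      ∃ c ∈ star (X : Set (List A)), c ≠ [] ∧ c <+: z ∧ ∀ s : List A, s.length ≤ 4 ^ m →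
        c ++ s ∈ prefs (star (X : Set (List A))) → s ∈ prefs (star (X : Set (List A))) :=
  prefix_dec X m hm

end Pool.Agent.Results.MP_bdc915_lc.PrefixCodeTest
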